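import Pool.Agent.UIL.Triple

/-!
# MP_08f38f_nt: for a fixed value `s` there are only `O_s(log log X)` members with `max I ≤ X` (helper75)
-/

namespace UIL

open Pool.Agent.P30.UnitInterval

theorem one_lt_log_three : 1 < Real.log 3 := by
  rw [Real.lt_log_iff_exp_lt (by norm_num)]
  exact lt_trans Real.exp_one_lt_d9 (by norm_num)

theorem log_grow {x z : ℕ} (h3 : (2 * x + 1) ^ 39 ≤ (2 * z + 1) ^ 38) :
    39 * Real.log (2 * (x : ℝ) + 1) ≤ 38 * Real.log (2 * (z : ℝ) + 1) := by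
  obtain ⟨X, hX⟩ : ∃ X : ℕ, X = 2 * x + 1 := ⟨_, rfl⟩
  obtain ⟨Z, hZ⟩ : ∃ X : ℕ, X = 2 * z + 1 := ⟨_, rfl⟩
  rw [← hX, ← hZ] at h3
  have e1 : 2 * (x : ℝ) + 1 = X := by rw [hX]; push_cast; ring
  have e2 : 2 * (z : ℝ) + 1 = Z := by rw [hZ]; push_cast; ring
  rw [e1, e2]
  have hXpos : (0 : ℝ) < X := by
    have : 0 < X := by omega
    exact_mod_cast this
  have h4 : (X : ℝ) ^ 39 ≤ (Z : ℝ) ^ 38 := by exact_mod_cast h3
  have h5 := Real.log_le_log (by positivity) h4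
  rw [Real.log_pow, Real.log_pow] at h5
  push_cast at h5
  exact h5

theorem exists_max {S : Finset ℕ} (h : 0 < S.card) : ∃ z ∈ S, ∀ x ∈ S, x ≤ z :=
  ⟨S.max' (Finset.card_pos.1 h), S.max'_mem _, fun x hx => S.le_max' x hx⟩

theorem card_growth (n : ℕ) : ∀ S : Finset ℕ, (∀ x ∈ S, 1 ≤ x) →
    (∀ x ∈ S, ∀ y ∈ S, ∀ z ∈ S, x < y → y < z → (2 * x + 1) ^ 39 ≤ (2 * z + 1) ^ 38) →
    2 * n + 1 ≤ S.card → ∃ x ∈ S, ((39 : ℝ) / 38) ^ n ≤ Real.log (2 * (x : ℝ) + 1) := by
  induction n with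
  | zero =>
    intro S h1 _ hc
    obtain ⟨x, hx⟩ := Finset.card_pos.1 (by omega : 0 < S.card)
    refine ⟨x, hx, ?_⟩
    rw [pow_zero]
    have h2 : (1 : ℝ) ≤ x := by exact_mod_cast h1 x hx
    have h3 : Real.log 3 ≤ Real.log (2 * (x : ℝ) + 1) := Real.log_le_log (by norm_num) (by linarith)
    linarith [one_lt_log_three]
  | succ n ih =>
    intro S h1 h2 hc
    obtain ⟨z, hzS, hzmax⟩ := exists_max (S := S) (by omega)
    have hc1 : (S.erase z).card = S.card - 1 := Finset.card_erase_of_mem hzS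
    obtain ⟨y, hyS, hymax⟩ := exists_max (S := S.erase z) (by omega)
    have hc2 : ((S.erase z).erase y).card = (S.erase z).card - 1 := Finset.card_erase_of_mem hyS
    have hyS' : y ∈ S := Finset.mem_of_mem_erase hyS
    have hyz : y < z := lt_of_le_of_ne (hzmax y hyS') (Finset.ne_of_mem_erase hyS)
    obtain ⟨x, hx, hx2⟩ := ih ((S.erase z).erase y)
      (fun x hx => h1 x (Finset.mem_of_mem_erase (Finset.mem_of_mem_erase hx)))
      (fun x hx y hy z hz => h2 x (Finset.mem_of_mem_erase (Finset.mem_of_mem_erase hx)) y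
        (Finset.mem_of_mem_erase (Finset.mem_of_mem_erase hy)) z
        (Finset.mem_of_mem_erase (Finset.mem_of_mem_erase hz))) (by omega)
    have hxS1 : x ∈ S.erase z := Finset.mem_of_mem_erase hx
    have hxS : x ∈ S := Finset.mem_of_mem_erase hxS1
    have hxy : x < y := lt_of_le_of_ne (hymax x hxS1) (Finset.ne_of_mem_erase hx)
    refine ⟨z, hzS, ?_⟩
    have h5 := log_grow (h2 x hxS y hyS' z hzS hxy hyz)
    rw [pow_succ]
    linarith

/-- `m` is determined by the interval and the value -/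
theorem m_unique' {a b m m' s : ℕ} (h : Sol a b m s) (h' : Sol a b m' s) : m = m' := by
  have e1 := h.eq
  have e2 := h'.eq
  have h3 : (1 : ℚ) / m = 1 / m' := by linarith
  have h4 : (m : ℚ) = m' := by
    rw [one_div, one_div] at h3
    exact inv_injective h3
  exact_mod_cast h4

/-- `b` is determined by `a` for large `b`, and `a` is large -/
theorem large (s : ℕ) (Q0 : ℕ) : ∃ B1 : ℕ, (∀ a b m : ℕ, B1 ≤ b → Sol a b m s → Q0 ≤ a ∧ 1 ≤ a) ∧
    ∀ a b m b' m' : ℕ, B1 ≤ b → B1 ≤ b' → Sol a b m s → Sol a b' m' s → b = b' := by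
  obtain ⟨C, hC, B0, hexp⟩ := expand s
  obtain ⟨N, hN⟩ := exists_nat_gt ((2 * (Q0 : ℝ) + 2 * C + 5) * Real.exp (s + 5))
  have hlarge : ∀ a b m : ℕ, max B0 N ≤ b → Sol a b m s → 2 * (Q0 : ℝ) + 2 * C + 5 < 2 * a + 1 := by
    intro a b m hb h
    have h1 := (hexp a b m (le_trans (le_max_left _ _) hb) h).2
    have h2 : (N : ℝ) ≤ b := by exact_mod_cast le_trans (le_max_right _ _) hb
    have h3 : (0 : ℝ) ≤ b := Nat.cast_nonneg _
    have h4 : (2 * (Q0 : ℝ) + 2 * C + 5) * Real.exp (s + 5) < (2 * (a : ℝ) + 1) * Real.exp (s + 5) := by linarith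
    exact lt_of_mul_lt_mul_right h4 (Real.exp_pos _).le
  refine ⟨max B0 N, ?_, ?_⟩
  · intro a b m hb h
    have h1 := hlarge a b m hb h
    have h0 : (0 : ℝ) ≤ Q0 := Nat.cast_nonneg _
    have h2 : (Q0 : ℝ) < a := by linarith
    have h3 : (1 : ℝ) < a := by linarith
    constructor
    · exact_mod_cast h2.le
    · exact_mod_cast h3.le
  · intro a b m b' m' hb hb' h h'
    have h1 := hlarge a b m hb h
    have h0 : (0 : ℝ) ≤ Q0 := Nat.cast_nonneg _
    have e1 := (hexp a b m (le_trans (le_max_left _ _) hb) h).1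
    have e2 := (hexp a b' m' (le_trans (le_max_left _ _) hb') h').1
    obtain ⟨q, hq⟩ : ∃ q : ℝ, q = 2 * (a : ℝ) + 1 := ⟨_, rfl⟩
    rw [← hq] at h1 e1 e2
    have hq1 : 1 ≤ q := by linarith
    have h2 : C / q ^ 3 < 1 / 2 := by
      rw [div_lt_div_iff₀ (by positivity) (by norm_num)]
      have h3 : q ≤ q ^ 3 := le_self_pow₀ hq1 (by norm_num)
      linarith
    rw [abs_le] at e1 e2
    obtain ⟨i1, i2⟩ := e1
    obtain ⟨j1, j2⟩ := e2
    have h5 : (b : ℝ) < b' + 1 := by linarith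
    have h6 : (b' : ℝ) < b + 1 := by linarith
    have h7 : b < b' + 1 := by exact_mod_cast h5
    have h8 : b' < b + 1 := by exact_mod_cast h6
    omega

/-- the count -/
theorem count (s : ℕ) (hs : 1 ≤ s) : ∃ C : ℝ, ∀ X : ℕ, 3 ≤ X → ∀ P : Finset (ℕ × ℕ),
    (∀ p ∈ P, p.2 ≤ X ∧ ∃ m, Sol p.1 p.2 m s) → (P.card : ℝ) ≤ C * Real.log (Real.log X) := by
  classical
  obtain ⟨Q0, hQ0⟩ := triple s hs
  obtain ⟨B1, hB1, hB2⟩ := large s Q0
  have hL : 0 < Real.log ((39 : ℝ) / 38) := Real.log_pos (by norm_num)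
  have hl3 : 0 < Real.log (Real.log 3) := Real.log_pos one_lt_log_three
  refine ⟨((B1 : ℝ) ^ 2 + 2 + 2 * Real.log 2 / Real.log ((39 : ℝ) / 38)) / Real.log (Real.log 3) +
    2 / Real.log ((39 : ℝ) / 38), ?_⟩
  intro X hX P hP
  have hXr : (3 : ℝ) ≤ X := by exact_mod_cast hX
  have hlog3 : Real.log 3 ≤ Real.log X := Real.log_le_log (by norm_num) hXr
  have hlogX : 0 < Real.log X := by linarith [one_lt_log_three]
  have hll : Real.log (Real.log 3) ≤ Real.log (Real.log X) :=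
    Real.log_le_log (by linarith [one_lt_log_three]) hlog3
  -- splitting
  have hsplit : P.card = (P.filter fun p => p.2 < B1).card + (P.filter fun p => ¬ p.2 < B1).card :=
    (Finset.card_filter_add_card_filter_not _).symm
  have hP1 : (P.filter fun p => p.2 < B1).card ≤ B1 ^ 2 := by
    have h1 : (P.filter fun p => p.2 < B1) ⊆ (Finset.range B1) ×ˢ (Finset.range B1) := by
      intro p hp
      rw [Finset.mem_filter] at hp
      obtain ⟨_, m, hm⟩ := hP p hp.1
      have h2 := hm.hab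
      rw [Finset.mem_product, Finset.mem_range, Finset.mem_range]
      omega
    have h2 := Finset.card_le_card h1
    rw [Finset.card_product, Finset.card_range] at h2
    rw [sq]
    exact h2
  set P2 := P.filter fun p => ¬ p.2 < B1 with hP2
  have hmem : ∀ p ∈ P2, B1 ≤ p.2 ∧ p.2 ≤ X ∧ ∃ m, Sol p.1 p.2 m s := by
    intro p hp
    rw [hP2, Finset.mem_filter] at hp
    obtain ⟨h1, h2⟩ := hP p hp.1
    exact ⟨not_lt.1 hp.2, h1, h2⟩
  have hinj : Set.InjOn (fun p : ℕ × ℕ => p.1) (P2 : Set (ℕ × ℕ)) := by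
    intro p hp p' hp' h
    obtain ⟨h1, -, m, hm⟩ := hmem p hp
    obtain ⟨h1', -, m', hm'⟩ := hmem p' hp'
    have h' : p.1 = p'.1 := h
    rw [← h'] at hm'
    exact Prod.ext h' (hB2 _ _ _ _ _ h1 h1' hm hm')
  set S := P2.image (fun p : ℕ × ℕ => p.1) with hS
  have hcard : S.card = P2.card := Finset.card_image_of_injOn hinj
  have hSmem : ∀ a ∈ S, ∃ b m, B1 ≤ b ∧ b ≤ X ∧ Sol a b m s := by
    intro a ha
    rw [hS, Finset.mem_image] at ha
    obtain ⟨p, hp, rfl⟩ := ha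
    obtain ⟨h1, h2, m, hm⟩ := hmem p hp
    exact ⟨p.2, m, h1, h2, hm⟩
  have hS1 : ∀ x ∈ S, 1 ≤ x := by
    intro a ha
    obtain ⟨b, m, h1, -, hm⟩ := hSmem a ha
    exact (hB1 a b m h1 hm).2
  have hS3 : ∀ x ∈ S, ∀ y ∈ S, ∀ z ∈ S, x < y → y < z → (2 * x + 1) ^ 39 ≤ (2 * z + 1) ^ 38 := by
    intro x hx y hy z hz hxy hyz
    obtain ⟨b1, m1, k1, -, hm1⟩ := hSmem x hx
    obtain ⟨b2, m2, k2, -, hm2⟩ := hSmem y hy
    obtain ⟨b3, m3, k3, -, hm3⟩ := hSmem z hz
    exact hQ0 x b1 m1 y b2 m2 z b3 m3 (hB1 x b1 m1 k1 hm1).1 hxy hyz hm1 hm2 hm3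
  have hScard : (S.card : ℝ) ≤ 2 + 2 * (Real.log 2 + Real.log (Real.log X)) / Real.log ((39 : ℝ) / 38) := by
    rcases Nat.eq_zero_or_pos S.card with h0 | h0
    · rw [h0]
      have : 0 ≤ 2 * (Real.log 2 + Real.log (Real.log X)) / Real.log ((39 : ℝ) / 38) := by
        have : 0 < Real.log 2 := Real.log_pos (by norm_num)
        apply div_nonneg _ hL.le
        linarith
      push_cast
      linarith
    · obtain ⟨n, hn⟩ : ∃ n : ℕ, n = (S.card - 1) / 2 := ⟨_, rfl⟩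
      obtain ⟨x, hx, hx2⟩ := card_growth n S hS1 hS3 (by omega)
      obtain ⟨b, m, -, hbX, hm⟩ := hSmem x hx
      have hxX : (x : ℝ) + 1 ≤ X := by
        have := hm.hab
        exact_mod_cast (by omega : x + 1 ≤ X)
      have h1 : Real.log (2 * (x : ℝ) + 1) ≤ 2 * Real.log X := by
        have h2 : Real.log (2 * (x : ℝ) + 1) ≤ Real.log ((X : ℝ) ^ 2) :=
          Real.log_le_log (by positivity) (by nlinarith)
        rw [Real.log_pow] at h2
        push_cast at h2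
        exact h2
      have h2 : ((39 : ℝ) / 38) ^ n ≤ 2 * Real.log X := hx2.trans h1
      have h3 := Real.log_le_log (by positivity) h2
      rw [Real.log_pow, Real.log_mul (by norm_num) hlogX.ne'] at h3
      have h4 : (n : ℝ) ≤ (Real.log 2 + Real.log (Real.log X)) / Real.log ((39 : ℝ) / 38) := by
        rw [le_div_iff₀ hL]
        exact h3
      have h5 : (S.card : ℝ) ≤ 2 * n + 2 := by
        have : S.card ≤ 2 * n + 2 := by omega
        exact_mod_cast this
      have h6 : 2 * (Real.log 2 + Real.log (Real.log X)) / Real.log ((39 : ℝ) / 38) =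
          2 * ((Real.log 2 + Real.log (Real.log X)) / Real.log ((39 : ℝ) / 38)) := by ring
      rw [h6]
      linarith
  have hfin : (P.card : ℝ) ≤ (B1 : ℝ) ^ 2 +
      (2 + 2 * (Real.log 2 + Real.log (Real.log X)) / Real.log ((39 : ℝ) / 38)) := by
    rw [hcard] at hScard
    have h1 : (P.card : ℝ) = ((P.filter fun p => p.2 < B1).card : ℝ) + (P2.card : ℝ) := by exact_mod_cast hsplit
    have h2 : (((P.filter fun p => p.2 < B1).card : ℕ) : ℝ) ≤ (B1 : ℝ) ^ 2 := by exact_mod_cast hP1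
    linarith
  refine hfin.trans ?_
  have h7 : 0 < Real.log 2 := Real.log_pos (by norm_num)
  set K : ℝ := (B1 : ℝ) ^ 2 + 2 + 2 * Real.log 2 / Real.log ((39 : ℝ) / 38) with hK
  have hK0 : 0 ≤ K := by positivity
  have h8 : K ≤ K / Real.log (Real.log 3) * Real.log (Real.log X) := by
    have : K / Real.log (Real.log 3) * Real.log (Real.log 3) ≤ K / Real.log (Real.log 3) * Real.log (Real.log X) :=
      mul_le_mul_of_nonneg_left hll (by positivity)
    rw [div_mul_cancel₀ _ hl3.ne'] at this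
    exact this
  have h9 : (B1 : ℝ) ^ 2 + (2 + 2 * (Real.log 2 + Real.log (Real.log X)) / Real.log ((39 : ℝ) / 38)) =
      K + 2 / Real.log ((39 : ℝ) / 38) * Real.log (Real.log X) := by
    rw [hK]
    ring
  rw [h9, add_mul]
  linarith

end UIL
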