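import Pool.Agent.P30.UnitIntervalG

/-!
# MP_08f38f_nt: the expansion `2 b + 1 = e^s (2 a + 1) + (sinh s / 3) / (2 a + 1) + O((2 a + 1)^(-3))` (helper75)
-/

namespace UIL

open Pool.Agent.P30.UnitInterval

/-- the potential -/
noncomputable def Gf (n : ℕ) : ℝ := Real.log (2 * n + 1) + 1 / (6 * (2 * (n : ℝ) + 1) ^ 2)

theorem log_step (x : ℝ) (hx : 1 ≤ x) :
    |Real.log (2 * x + 1) - Real.log (2 * x - 1) - 1 / x - 1 / (12 * x ^ 3)| ≤ 1 / (8 * x ^ 5) := by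
  obtain ⟨y, hy⟩ : ∃ y : ℝ, y = 1 / (2 * x) := ⟨_, rfl⟩
  have hy0 : 0 < y := by rw [hy]; positivity
  have hy1 : y ≤ 1 / 2 := by
    rw [hy, div_le_div_iff₀ (by positivity) (by norm_num)]
    linarith
  have h1 := Real.abs_log_sub_add_sum_range_le (x := y) (by rw [abs_of_pos hy0]; linarith) 4
  have h2 := Real.abs_log_sub_add_sum_range_le (x := -y) (by rw [abs_neg, abs_of_pos hy0]; linarith) 4
  rw [abs_neg] at h2
  rw [abs_of_pos hy0] at h1 h2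
  have h3 : y ^ (4 + 1) / (1 - y) ≤ 2 * y ^ 5 := by
    rw [div_le_iff₀ (by linarith)]
    have h5 : (0 : ℝ) < y ^ 5 := by positivity
    have h6 : y ^ (4 + 1) = y ^ 5 := rfl
    rw [h6]
    nlinarith
  have h1' := h1.trans h3
  have h2' := h2.trans h3
  simp only [Finset.sum_range_succ, Finset.sum_range_zero] at h1' h2'
  norm_num at h1' h2'
  have e1 : Real.log (2 * x + 1) - Real.log (2 * x - 1) = Real.log (1 + y) - Real.log (1 - y) := by
    have hx0 : (0 : ℝ) < 2 * x := by linarith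
    have e2 : 2 * x + 1 = (2 * x) * (1 + y) := by rw [hy]; field_simp
    have e3 : 2 * x - 1 = (2 * x) * (1 - y) := by rw [hy]; field_simp
    rw [e2, e3, Real.log_mul hx0.ne' (by positivity), Real.log_mul hx0.ne' (by linarith)]
    ring
  have e4 : 1 / x = 2 * y := by rw [hy]; field_simp
  have e5 : 1 / (12 * x ^ 3) = (2 / 3) * y ^ 3 := by rw [hy]; field_simp; norm_num
  have e6 : 1 / (8 * x ^ 5) = 4 * y ^ 5 := by rw [hy]; field_simp; norm_num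
  rw [e1, e4, e5, e6]
  rw [abs_le] at h1' h2' ⊢
  obtain ⟨a1, a2⟩ := h1'
  obtain ⟨b1, b2⟩ := h2'
  have e7 : (-y) ^ 3 = - y ^ 3 := by ring
  rw [e7] at b1 b2
  constructor <;> linarith

theorem rat_step (x : ℝ) (hx : 1 ≤ x) :
    |1 / (6 * (2 * x - 1) ^ 2) - 1 / (6 * (2 * x + 1) ^ 2) - 1 / (12 * x ^ 3)| ≤ 2 / (27 * x ^ 5) := by
  have h1 : 0 < 2 * x - 1 := by linarith
  have h2 : 0 < 2 * x + 1 := by linarith
  have hx0 : 0 < x := by linarith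
  have e : 1 / (6 * (2 * x - 1) ^ 2) - 1 / (6 * (2 * x + 1) ^ 2) - 1 / (12 * x ^ 3) =
      (8 * x ^ 2 - 1) / (12 * x ^ 3 * (4 * x ^ 2 - 1) ^ 2) := by
    have h3 : (4 * x ^ 2 - 1) = (2 * x - 1) * (2 * x + 1) := by ring
    rw [h3]
    field_simp
    ring
  have h4 : 3 * x ^ 2 ≤ 4 * x ^ 2 - 1 := by nlinarith
  have h5 : 0 ≤ 8 * x ^ 2 - 1 := by nlinarith
  have h6 : 0 < 4 * x ^ 2 - 1 := by nlinarith
  rw [e, abs_of_nonneg (by positivity), div_le_div_iff₀ (by positivity) (by positivity)]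
  have h7 : (3 * x ^ 2) ^ 2 ≤ (4 * x ^ 2 - 1) ^ 2 := pow_le_pow_left₀ (by positivity) h4 2
  have h8 : 2 * (12 * x ^ 3 * (3 * x ^ 2) ^ 2) ≤ 2 * (12 * x ^ 3 * (4 * x ^ 2 - 1) ^ 2) := by gcongr
  have h9 : (8 * x ^ 2 - 1) * (27 * x ^ 5) ≤ 2 * (12 * x ^ 3 * (3 * x ^ 2) ^ 2) := by
    have : 0 < x ^ 5 := by positivity
    nlinarith
  linarith

theorem Gf_step (n : ℕ) : |Gf (n + 1) - Gf n - 1 / ((n : ℝ) + 1)| ≤
    4 * (1 / (2 * (n : ℝ) + 1) ^ 4 - 1 / (2 * ((n + 1 : ℕ) : ℝ) + 1) ^ 4) := by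
  obtain ⟨x, hx⟩ : ∃ x : ℝ, x = (n : ℝ) + 1 := ⟨_, rfl⟩
  have hx1 : 1 ≤ x := by
    rw [hx]
    have : (0 : ℝ) ≤ n := Nat.cast_nonneg n
    linarith
  have h1 := log_step x hx1
  have h2 := rat_step x hx1
  have e1 : (2 * ((n + 1 : ℕ) : ℝ) + 1) = 2 * x + 1 := by rw [hx]; push_cast; ring
  have e2 : (2 * (n : ℝ) + 1) = 2 * x - 1 := by rw [hx]; ring
  have e3 : Gf (n + 1) - Gf n - 1 / ((n : ℝ) + 1) =
      (Real.log (2 * x + 1) - Real.log (2 * x - 1) - 1 / x - 1 / (12 * x ^ 3)) -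
      (1 / (6 * (2 * x - 1) ^ 2) - 1 / (6 * (2 * x + 1) ^ 2) - 1 / (12 * x ^ 3)) := by
    unfold Gf
    rw [e1, e2, ← hx]
    ring
  rw [e3, e1, e2]
  refine (abs_sub _ _).trans ((add_le_add h1 h2).trans ?_)
  have h3 : 0 < 2 * x - 1 := by linarith
  have hx0 : 0 < x := by linarith
  have h4 : 0 < 4 * x ^ 2 - 1 := by nlinarith
  have e4 : 4 * (1 / (2 * x - 1) ^ 4 - 1 / (2 * x + 1) ^ 4) = 4 * (64 * x ^ 3 + 16 * x) / (4 * x ^ 2 - 1) ^ 4 := by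
    have h5 : (4 * x ^ 2 - 1) = (2 * x - 1) * (2 * x + 1) := by ring
    rw [h5]
    field_simp
    ring
  have h5 : (4 * x ^ 2 - 1) ^ 4 ≤ (4 * x ^ 2) ^ 4 := pow_le_pow_left₀ h4.le (by linarith) 4
  have h6 : 1 / x ^ 5 ≤ 4 * (64 * x ^ 3 + 16 * x) / (4 * x ^ 2 - 1) ^ 4 := by
    rw [div_le_div_iff₀ (by positivity) (by positivity)]
    have h7 : (4 * x ^ 2) ^ 4 ≤ 4 * (64 * x ^ 3 + 16 * x) * x ^ 5 := by
      have : 0 < x ^ 6 := by positivity
      nlinarith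
    linarith
  have h7 : 1 / (8 * x ^ 5) + 2 / (27 * x ^ 5) ≤ 1 / x ^ 5 := by
    have h8 : 1 / (8 * x ^ 5) + 2 / (27 * x ^ 5) = (43 / 216) * (1 / x ^ 5) := by
      field_simp
      norm_num
    rw [h8]
    have : 0 < 1 / x ^ 5 := by positivity
    linarith
  rw [e4]
  exact h7.trans h6

theorem Gf_sum (a b : ℕ) (hab : a ≤ b) : |Gf b - Gf a - ((hs a b : ℚ) : ℝ)| ≤
    4 * (1 / (2 * (a : ℝ) + 1) ^ 4 - 1 / (2 * (b : ℝ) + 1) ^ 4) := by
  induction b, hab using Nat.le_induction with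
  | base =>
    have : hs a a = 0 := by simp [hs]
    rw [this]
    simp
  | succ b hab ih =>
    have h1 : hs a (b + 1) = hs a b + 1 / ((b : ℚ) + 1) := by
      rw [← hs_add hab (Nat.le_succ b)]
      have : hs b (b + 1) = 1 / ((b : ℚ) + 1) := by
        unfold hs
        rw [Nat.Ioc_succ_singleton, Finset.sum_singleton]
        push_cast
        rfl
      rw [this]
    have h2 := Gf_step b
    rw [h1]
    push_cast at h2 ⊢
    rw [abs_le] at ih h2 ⊢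
    obtain ⟨i1, i2⟩ := ih
    obtain ⟨j1, j2⟩ := h2
    constructor <;> linarith

theorem inv_m_small {a b m s : ℕ} (h : Sol a b m s) (hb : 300 ^ 4 ≤ b) :
    (1 : ℝ) / m ≤ 1215000 / (2 * (b : ℝ) + 1) ^ 4 := by
  have h1 := inv_m_le h hb
  have hb' : ((300 : ℝ) ^ 4) ≤ b := by exact_mod_cast hb
  have hb1 : (1 : ℝ) ≤ b := le_trans (by norm_num) hb'
  have h2 := Real.pow_div_factorial_le_exp ((b : ℝ) / 5) (by linarith) 4
  have h3 : ((Nat.factorial 4 : ℕ) : ℝ) = 24 := by norm_num [Nat.factorial]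
  rw [h3] at h2
  have h4 : Real.exp (-((b : ℝ) / 5)) ≤ 15000 / (b : ℝ) ^ 4 := by
    rw [Real.exp_neg, ← one_div, div_le_div_iff₀ (Real.exp_pos _) (by positivity)]
    have h5 : ((b : ℝ) / 5) ^ 4 / 24 = (b : ℝ) ^ 4 / 15000 := by ring
    rw [h5, div_le_iff₀ (by norm_num)] at h2
    linarith
  refine (h1.trans h4).trans ?_
  rw [div_le_div_iff₀ (by positivity) (by positivity)]
  have h6 : (2 * (b : ℝ) + 1) ^ 4 ≤ (3 * b) ^ 4 := pow_le_pow_left₀ (by positivity) (by linarith) 4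
  nlinarith

/-- the logarithm of the ratio -/
theorem theta {a b m s : ℕ} (h : Sol a b m s) (hb : 300 ^ 4 ≤ b) :
    |Real.log (2 * b + 1) - Real.log (2 * a + 1) - s -
      (1 / (6 * (2 * (a : ℝ) + 1) ^ 2) - 1 / (6 * (2 * (b : ℝ) + 1) ^ 2))| ≤ 1215004 / (2 * (a : ℝ) + 1) ^ 4 ∧
    Real.log (2 * b + 1) - Real.log (2 * a + 1) ≤ s + 5 := by
  have h1 := Gf_sum a b h.hab.le
  have h2 := inv_m_small h hb
  have h3 : ((hs a b : ℚ) : ℝ) = s - 1 / m := by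
    have h4 := h.eq
    have h5 : hs a b = (s : ℚ) - 1 / m := by linarith
    rw [h5]
    push_cast
    rfl
  have ha0 : (0 : ℝ) ≤ a := Nat.cast_nonneg a
  have hab : (a : ℝ) < b := by exact_mod_cast h.hab
  have hm : (0 : ℝ) ≤ 1 / m := by positivity
  have hq : (1 : ℝ) ≤ 2 * (a : ℝ) + 1 := by linarith
  have h6 : (1 : ℝ) / (2 * (b : ℝ) + 1) ^ 4 ≤ 1 / (2 * (a : ℝ) + 1) ^ 4 := by
    apply one_div_le_one_div_of_le (by positivity)
    exact pow_le_pow_left₀ (by positivity) (by linarith) 4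
  have h7 : (0 : ℝ) ≤ 1 / (2 * (b : ℝ) + 1) ^ 4 := by positivity
  have h8 : 1 / (2 * (a : ℝ) + 1) ^ 4 ≤ 1 := by
    rw [div_le_one (by positivity)]
    exact one_le_pow₀ hq
  have h9 : 1 / (6 * (2 * (a : ℝ) + 1) ^ 2) ≤ 1 := by
    rw [div_le_one (by positivity)]
    nlinarith
  have h10 : 0 ≤ 1 / (6 * (2 * (b : ℝ) + 1) ^ 2) := by positivity
  have e1 : 1215004 / (2 * (a : ℝ) + 1) ^ 4 = 1215000 * (1 / (2 * (a : ℝ) + 1) ^ 4) + 4 * (1 / (2 * (a : ℝ) + 1) ^ 4) := by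
    ring
  have e2 : 1215000 / (2 * (b : ℝ) + 1) ^ 4 = 1215000 * (1 / (2 * (b : ℝ) + 1) ^ 4) := by ring
  rw [h3] at h1
  unfold Gf at h1
  rw [e2] at h2
  rw [abs_le] at h1
  obtain ⟨i1, i2⟩ := h1
  refine ⟨?_, by linarith⟩
  rw [e1, abs_le]
  constructor <;> linarith

/-- the expansion -/
theorem expand (s : ℕ) : ∃ C : ℝ, 0 < C ∧ ∃ B0 : ℕ, ∀ a b m : ℕ, B0 ≤ b → Sol a b m s →
    |(2 * (b : ℝ) + 1) - Real.exp s * (2 * a + 1) - (Real.sinh s / 3) / (2 * a + 1)| ≤ C / (2 * (a : ℝ) + 1) ^ 3 ∧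
    (2 * (b : ℝ) + 1) ≤ Real.exp (s + 5) * (2 * a + 1) := by
  obtain ⟨B1, hB1⟩ := exists_nat_ge (2000 * Real.exp (s + 5))
  refine ⟨Real.exp s * (10 ^ 14), by positivity, max (300 ^ 4) B1, ?_⟩
  intro a b m hb h
  have hb1 : 300 ^ 4 ≤ b := le_trans (le_max_left _ _) hb
  have hb2 : (B1 : ℝ) ≤ b := by exact_mod_cast le_trans (le_max_right _ _) hb
  obtain ⟨t1, t2⟩ := theta h hb1
  have ha0 : (0 : ℝ) ≤ a := Nat.cast_nonneg a
  have hab : (a : ℝ) < b := by exact_mod_cast h.hab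
  obtain ⟨q, hq⟩ : ∃ q : ℝ, q = 2 * (a : ℝ) + 1 := ⟨_, rfl⟩
  obtain ⟨p, hp⟩ : ∃ p : ℝ, p = 2 * (b : ℝ) + 1 := ⟨_, rfl⟩
  rw [← hq, ← hp] at t1 t2 ⊢
  have hq1 : 1 ≤ q := by rw [hq]; linarith
  have hp1 : 1 ≤ p := by rw [hp]; linarith
  have hpq : p ≤ Real.exp (s + 5) * q := by
    have h1 : Real.log p ≤ Real.log (Real.exp (s + 5) * q) := by
      rw [Real.log_mul (Real.exp_pos _).ne' (by linarith), Real.log_exp]
      linarith
    exact (Real.log_le_log_iff (by linarith) (by positivity)).1 h1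
  refine ⟨?_, hpq⟩
  have hq2 : 2000 ≤ q := by
    have h1 : 2000 * Real.exp (s + 5) ≤ p := by rw [hp]; linarith
    have h2 : Real.exp (s + 5) * 2000 ≤ Real.exp (s + 5) * q := by linarith
    exact le_of_mul_le_mul_left h2 (Real.exp_pos _)
  obtain ⟨θ, hθ⟩ : ∃ θ : ℝ, θ = Real.log p - Real.log q - s := ⟨_, rfl⟩
  rw [← hθ] at t1
  have hpe : p = Real.exp s * q * Real.exp θ := by
    have h1 : Real.log p = Real.log q + s + θ := by rw [hθ]; ring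
    have h2 : p = Real.exp (Real.log q + s + θ) := by rw [← h1, Real.exp_log (by linarith)]
    rw [h2, Real.exp_add, Real.exp_add, Real.exp_log (by linarith)]
    ring
  have hq4 : 1 / q ^ 4 ≤ 1 / q ^ 2 := by
    apply one_div_le_one_div_of_le (by positivity)
    exact pow_le_pow_right₀ hq1 (by norm_num)
  have hp6 : 0 ≤ 1 / (6 * p ^ 2) := by positivity
  have hq6 : 1 / (6 * q ^ 2) = (1 / 6) * (1 / q ^ 2) := by ring
  have hpq2 : 1 / (6 * p ^ 2) ≤ 1 / (6 * q ^ 2) := by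
    apply one_div_le_one_div_of_le (by positivity)
    have : q ≤ p := by rw [hq, hp]; linarith
    nlinarith
  have e1 : 1215004 / q ^ 4 = 1215004 * (1 / q ^ 4) := by ring
  have hθ1 : |θ| ≤ 1215005 * (1 / q ^ 2) := by
    rw [e1] at t1
    rw [abs_le] at t1 ⊢
    obtain ⟨i1, i2⟩ := t1
    have : 0 ≤ 1 / q ^ 2 := by positivity
    constructor <;> linarith
  have hq22 : 1 / q ^ 2 ≤ 1 / 4000000 := by
    apply one_div_le_one_div_of_le (by norm_num)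
    nlinarith
  have hθ2 : |θ| ≤ 1 / 2 := by linarith
  have hex1 := Real.abs_exp_sub_one_sub_id_le (x := θ) (by linarith)
  have hex2 := Real.abs_exp_sub_one_le (x := -(2 * θ)) (by rw [abs_neg, abs_mul, abs_two]; linarith)
  rw [abs_neg, abs_mul, abs_two] at hex2
  have hθ3 : θ ^ 2 ≤ 1215005 ^ 2 * (1 / q ^ 4) := by
    have h1 : |θ| ^ 2 ≤ (1215005 * (1 / q ^ 2)) ^ 2 := pow_le_pow_left₀ (abs_nonneg _) hθ1 2
    rw [sq_abs] at h1
    calc θ ^ 2 ≤ (1215005 * (1 / q ^ 2)) ^ 2 := h1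
      _ = 1215005 ^ 2 * (1 / q ^ 4) := by ring
  -- `1 / p ^ 2`
  have hpinv : 1 / (6 * p ^ 2) = Real.exp (-(2 * s)) * Real.exp (-(2 * θ)) * (1 / (6 * q ^ 2)) := by
    have h1 : Real.exp (-(2 * s)) = 1 / (Real.exp s) ^ 2 := by
      rw [Real.exp_neg, ← one_div, two_mul, Real.exp_add, sq]
    have h2 : Real.exp (-(2 * θ)) = 1 / (Real.exp θ) ^ 2 := by
      rw [Real.exp_neg, ← one_div, two_mul, Real.exp_add, sq]
    rw [h1, h2, hpe]
    have h3 := Real.exp_pos (s : ℝ)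
    have h4 := Real.exp_pos θ
    field_simp
  have hsinh : (Real.sinh s / 3) / q = Real.exp s * q * ((1 - Real.exp (-(2 * s))) * (1 / (6 * q ^ 2))) := by
    have h1 : Real.exp (-(2 * s)) = Real.exp (-s) * Real.exp (-s) := by rw [← Real.exp_add]; congr 1; ring
    have h2 : Real.exp s * Real.exp (-s) = 1 := by rw [← Real.exp_add, add_neg_cancel, Real.exp_zero]
    rw [Real.sinh_eq, h1]
    have h3 : Real.exp s * q * ((1 - Real.exp (-s) * Real.exp (-s)) * (1 / (6 * q ^ 2))) =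
        (Real.exp s - (Real.exp s * Real.exp (-s)) * Real.exp (-s)) * (q * (1 / (6 * q ^ 2))) := by ring
    rw [h3, h2]
    field_simp
    ring
  have hmain : p - Real.exp s * q - (Real.sinh s / 3) / q =
      Real.exp s * q * ((Real.exp θ - 1 - θ) + (θ - (1 / (6 * q ^ 2) - 1 / (6 * p ^ 2))) +
        (-(Real.exp (-(2 * s)) * (Real.exp (-(2 * θ)) - 1)) * (1 / (6 * q ^ 2)))) := by
    rw [hsinh, hpinv]
    have e2 : p - Real.exp s * q = Real.exp s * q * (Real.exp θ - 1) := by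
      rw [hpe]
      ring
    rw [e2]
    ring
  have hes : Real.exp (-(2 * (s : ℝ))) ≤ 1 := by
    rw [Real.exp_le_one_iff]
    have : (0 : ℝ) ≤ s := Nat.cast_nonneg s
    linarith
  have h3 : |-(Real.exp (-(2 * s)) * (Real.exp (-(2 * θ)) - 1)) * (1 / (6 * q ^ 2))| ≤ 1215005 * (1 / q ^ 4) := by
    rw [abs_mul, abs_neg, abs_mul, abs_of_pos (Real.exp_pos _), abs_of_nonneg (by positivity : 0 ≤ 1 / (6 * q ^ 2))]
    have h4 : Real.exp (-(2 * s)) * |Real.exp (-(2 * θ)) - 1| ≤ 1 * (2 * (2 * |θ|)) :=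
      mul_le_mul hes hex2 (abs_nonneg _) (by norm_num)
    have h5 : 1 * (2 * (2 * |θ|)) ≤ 4 * (1215005 * (1 / q ^ 2)) := by linarith
    calc Real.exp (-(2 * s)) * |Real.exp (-(2 * θ)) - 1| * (1 / (6 * q ^ 2))
        ≤ 4 * (1215005 * (1 / q ^ 2)) * (1 / (6 * q ^ 2)) :=
          mul_le_mul_of_nonneg_right (h4.trans h5) (by positivity)
      _ = (4 / 6) * (1215005 * (1 / q ^ 4)) := by
          field_simp
      _ ≤ 1215005 * (1 / q ^ 4) := by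
          have : 0 ≤ 1 / q ^ 4 := by positivity
          linarith
  rw [hmain, abs_mul, abs_of_nonneg (by positivity : 0 ≤ Real.exp s * q)]
  have h4 := abs_add_three (Real.exp θ - 1 - θ) (θ - (1 / (6 * q ^ 2) - 1 / (6 * p ^ 2)))
    (-(Real.exp (-(2 * s)) * (Real.exp (-(2 * θ)) - 1)) * (1 / (6 * q ^ 2)))
  rw [e1] at t1
  have h5 : |(Real.exp θ - 1 - θ) + (θ - (1 / (6 * q ^ 2) - 1 / (6 * p ^ 2))) +
      (-(Real.exp (-(2 * s)) * (Real.exp (-(2 * θ)) - 1)) * (1 / (6 * q ^ 2)))| ≤ 10 ^ 14 * (1 / q ^ 4) := by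
    have : 0 ≤ 1 / q ^ 4 := by positivity
    linarith
  calc Real.exp s * q * _ ≤ Real.exp s * q * (10 ^ 14 * (1 / q ^ 4)) := mul_le_mul_of_nonneg_left h5 (by positivity)
    _ = Real.exp s * 10 ^ 14 / q ^ 3 := by
        field_simp

end UIL
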