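import Pool.Agent.UIL.Measure
import Pool.Agent.UIL.Expand

/-!
# MP_08f38f_nt: three members with the same value (helper75)
-/

namespace UIL

open Pool.Agent.P30.UnitInterval

/-- the form `A` in the squares -/
def Af {R : Type*} [CommRing R] (U V W : R) : R := U ^ 2 + V ^ 2 + W ^ 2 - 2 * (U * V) - 2 * (U * W) - 2 * (V * W)

theorem prod_close {N η U V U' V' : ℝ} (hU : |U| ≤ N) (hV' : |V'| ≤ N)
    (hUU : |U - U'| ≤ η) (hVV : |V - V'| ≤ η) : |U * V - U' * V'| ≤ 2 * N * η := by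
  have e : U * V - U' * V' = U * (V - V') + (U - U') * V' := by ring
  rw [e]
  refine (abs_add_le _ _).trans ?_
  rw [abs_mul, abs_mul]
  have h0 : 0 ≤ N := (abs_nonneg _).trans hU
  have h1 : |U| * |V - V'| ≤ N * η := mul_le_mul hU hVV (abs_nonneg _) h0
  have h2 : |U - U'| * |V'| ≤ η * N := mul_le_mul hUU hV' (abs_nonneg _) ((abs_nonneg _).trans hUU)
  linarith

theorem Af_close {N η U V W U' V' W' : ℝ} (hU : |U| ≤ N) (hV : |V| ≤ N) (hW : |W| ≤ N)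
    (hU' : |U'| ≤ N) (hV' : |V'| ≤ N) (hW' : |W'| ≤ N)
    (h1 : |U - U'| ≤ η) (h2 : |V - V'| ≤ η) (h3 : |W - W'| ≤ η) : |Af U V W - Af U' V' W'| ≤ 18 * N * η := by
  have a1 := prod_close hU hU' h1 h1
  have a2 := prod_close hV hV' h2 h2
  have a3 := prod_close hW hW' h3 h3
  have a4 := prod_close hU hV' h1 h2
  have a5 := prod_close hU hW' h1 h3
  have a6 := prod_close hV hW' h2 h3
  unfold Af
  rw [abs_le] at *
  obtain ⟨b1, c1⟩ := a1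
  obtain ⟨b2, c2⟩ := a2
  obtain ⟨b3, c3⟩ := a3
  obtain ⟨b4, c4⟩ := a4
  obtain ⟨b5, c5⟩ := a5
  obtain ⟨b6, c6⟩ := a6
  constructor <;> nlinarith

theorem Bf_close {N η U V W U' V' W' : ℝ} (hU : |U| ≤ N) (hV : |V| ≤ N)
    (hV' : |V'| ≤ N) (hW' : |W'| ≤ N)
    (h1 : |U - U'| ≤ η) (h2 : |V - V'| ≤ η) (h3 : |W - W'| ≤ η) : |U * V * W - U' * V' * W'| ≤ 3 * N ^ 2 * η := by
  have h0 : 0 ≤ N := (abs_nonneg _).trans hU
  have hη : 0 ≤ η := (abs_nonneg _).trans h1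
  have a1 := prod_close hU hV' h1 h2
  have e : U * V * W - U' * V' * W' = (U * V) * (W - W') + (U * V - U' * V') * W' := by ring
  rw [e]
  refine (abs_add_le _ _).trans ?_
  rw [abs_mul, abs_mul, abs_mul]
  have b1 : |U| * |V| ≤ N * N := mul_le_mul hU hV (abs_nonneg _) h0
  have b2 : |U| * |V| * |W - W'| ≤ N * N * η := mul_le_mul b1 h3 (abs_nonneg _) (by positivity)
  have b3 : |U * V - U' * V'| * |W'| ≤ 2 * N * η * N := mul_le_mul a1 hW' (abs_nonneg _) (by positivity)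
  nlinarith

theorem Af_le {N U V W : ℝ} (hU : |U| ≤ N) (hV : |V| ≤ N) (hW : |W| ≤ N) : |Af U V W| ≤ 9 * N ^ 2 := by
  have h0 : 0 ≤ N := (abs_nonneg _).trans hU
  have key : ∀ {x y : ℝ}, |x| ≤ N → |y| ≤ N → |x * y| ≤ N ^ 2 := by
    intro x y hx hy
    rw [abs_mul, sq]
    exact mul_le_mul hx hy (abs_nonneg _) h0
  have a1 := key hU hU
  have a2 := key hV hV
  have a3 := key hW hW
  have a4 := key hU hV
  have a5 := key hU hW
  have a6 := key hV hW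
  unfold Af
  rw [abs_le] at *
  obtain ⟨b1, c1⟩ := a1
  obtain ⟨b2, c2⟩ := a2
  obtain ⟨b3, c3⟩ := a3
  obtain ⟨b4, c4⟩ := a4
  obtain ⟨b5, c5⟩ := a5
  obtain ⟨b6, c6⟩ := a6
  constructor <;> nlinarith

/-- the identity for the hyperbolic sines -/
theorem ident {σ x y z : ℝ} (hx : x ≠ 0) (hy : y ≠ 0) (hz : z ≠ 0) :
    σ ^ 2 * Af ((σ * (y / x - x / y)) ^ 2) ((σ * (z / x - x / z)) ^ 2) ((σ * (z / y - y / z)) ^ 2) =
      (σ * (y / x - x / y)) ^ 2 * (σ * (z / x - x / z)) ^ 2 * (σ * (z / y - y / z)) ^ 2 := by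
  unfold Af
  field_simp
  ring

/-- the first order quantity for two members -/
theorem pair_close {σ E C q p q' p' R q1 : ℝ} (hC : 0 ≤ C) (hq : 1 ≤ q) (hqq' : q ≤ q') (hq1 : q1 ≤ q) (h1 : 1 ≤ q1)
    (hR : q' / q ≤ R) (h : |p - E * q - σ / q| ≤ C / q ^ 3) (h' : |p' - E * q' - σ / q'| ≤ C / q' ^ 3) :
    |(q' * p - q * p') - σ * (q' / q - q / q')| ≤ 2 * C * R / q1 ^ 2 := by
  have hq' : 1 ≤ q' := hq.trans hqq'
  have e : (q' * p - q * p') - σ * (q' / q - q / q') = q' * (p - E * q - σ / q) - q * (p' - E * q' - σ / q') := by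
    ring
  rw [e]
  refine (abs_sub _ _).trans ?_
  rw [abs_mul, abs_mul, abs_of_nonneg (by linarith : 0 ≤ q'), abs_of_nonneg (by linarith : 0 ≤ q)]
  have a1 : q' * |p - E * q - σ / q| ≤ q' * (C / q ^ 3) := mul_le_mul_of_nonneg_left h (by linarith)
  have a2 : q * |p' - E * q' - σ / q'| ≤ q * (C / q' ^ 3) := mul_le_mul_of_nonneg_left h' (by linarith)
  have a3 : q' * (C / q ^ 3) = C * (q' / q) / q ^ 2 := by
    field_simp
  have hR1 : 1 ≤ R := by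
    refine le_trans ?_ hR
    rw [one_le_div (by linarith)]
    exact hqq'
  have a4 : C * (q' / q) / q ^ 2 ≤ C * R / q1 ^ 2 := by
    apply div_le_div₀ (by positivity) (mul_le_mul_of_nonneg_left hR hC) (by positivity)
    exact pow_le_pow_left₀ (by linarith) hq1 2
  have a5 : q * (C / q' ^ 3) ≤ C * R / q1 ^ 2 := by
    have b1 : q * (C / q' ^ 3) ≤ q' * (C / q' ^ 3) := mul_le_mul_of_nonneg_right hqq' (by positivity)
    have b2 : q' * (C / q' ^ 3) = C * 1 / q' ^ 2 := by field_simp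
    have b3 : C * 1 / q' ^ 2 ≤ C * R / q1 ^ 2 := by
      apply div_le_div₀ (by positivity) (mul_le_mul_of_nonneg_left hR1 hC) (by positivity)
      exact pow_le_pow_left₀ (by linarith) (hq1.trans hqq') 2
    linarith
  have a6 : 2 * C * R / q1 ^ 2 = C * R / q1 ^ 2 + C * R / q1 ^ 2 := by ring
  linarith

/-- the size of the quantities and positivity -/
theorem pair_all {σ E C q p q' p' R q1 : ℝ} (hσ : 0 < σ) (hC : 0 < C) (hq : 1 ≤ q) (hqq' : q + 1 ≤ q') (hq1 : q1 ≤ q)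
    (h1 : 1 ≤ q1) (hR : q' / q ≤ R) (hbig : 4 * C / σ < q1) (hbig2 : 2 * C ≤ q1)
    (h : |p - E * q - σ / q| ≤ C / q ^ 3) (h' : |p' - E * q' - σ / q'| ≤ C / q' ^ 3) :
    |(q' * p - q * p') - σ * (q' / q - q / q')| ≤ 2 * C * R / q1 ^ 2 ∧
    |q' * p - q * p'| ≤ (σ + 1) * R ∧ |σ * (q' / q - q / q')| ≤ (σ + 1) * R ∧ 0 < q' * p - q * p' := by
  have hq' : 1 ≤ q' := by linarith
  have hclose := pair_close hC.le hq (by linarith) hq1 h1 hR h h'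
  have hR1 : 1 ≤ R := by
    refine le_trans ?_ hR
    rw [one_le_div (by linarith)]
    linarith
  have hstar0 : 0 ≤ σ * (q' / q - q / q') := by
    apply mul_nonneg hσ.le
    rw [sub_nonneg, div_le_div_iff₀ (by linarith) (by linarith)]
    exact mul_self_le_mul_self (by linarith) (by linarith)
  have hstar : σ * (q' / q - q / q') ≤ σ * R := by
    apply mul_le_mul_of_nonneg_left _ hσ.le
    have : 0 ≤ q / q' := by positivity
    linarith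
  have hδ : 2 * C * R / q1 ^ 2 ≤ R := by
    rw [div_le_iff₀ (by positivity)]
    have h3 : 2 * C ≤ q1 ^ 2 := by
      have h4 : q1 * 1 ≤ q1 * q1 := mul_le_mul_of_nonneg_left h1 (by linarith)
      rw [sq]
      linarith
    have h5 : 2 * C * R ≤ q1 ^ 2 * R := mul_le_mul_of_nonneg_right h3 (by linarith)
    linarith
  refine ⟨hclose, ?_, ?_, ?_⟩
  · rw [abs_le] at hclose ⊢
    obtain ⟨i1, i2⟩ := hclose
    have e5 : (σ + 1) * R = σ * R + R := by ring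
    have e6 : 0 ≤ σ * R := by positivity
    rw [e5]
    constructor <;> linarith
  · rw [abs_of_nonneg hstar0]
    have e5 : (σ + 1) * R = σ * R + R := by ring
    linarith
  · by_contra hneg
    have hneg' : q' * p - q * p' ≤ 0 := not_lt.1 hneg
    have hcl := pair_close (σ := σ) (E := E) hC.le hq (by linarith) le_rfl hq le_rfl h h'
    rw [abs_le] at hcl
    have h2 : σ * (q' / q - q / q') ≤ 2 * C * (q' / q) / q ^ 2 := by linarith [hcl.1]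
    have h3 : σ * (1 / (q + 1)) ≤ 2 * C / q ^ 2 := by
      have h4 : σ * (q' / q - q / q') = σ * (1 - (q / q') ^ 2) * (q' / q) := by
        field_simp
      have h5 : 2 * C * (q' / q) / q ^ 2 = (2 * C / q ^ 2) * (q' / q) := by ring
      rw [h4, h5] at h2
      have h6 : 0 < q' / q := by positivity
      have h7 := le_of_mul_le_mul_right h2 h6
      refine le_trans ?_ h7
      apply mul_le_mul_of_nonneg_left _ hσ.le
      have h8 : q / q' ≤ 1 - 1 / (q + 1) := by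
        have h9 : 1 - 1 / (q + 1) = q / (q + 1) := by field_simp; ring
        rw [h9]
        exact div_le_div_of_nonneg_left (by linarith) (by linarith) hqq'
      have h9 : 0 ≤ q / q' := by positivity
      have h10 : 0 < 1 / (q + 1) := by positivity
      have h11 : (q / q') ^ 2 ≤ q / q' := by
        rw [sq]
        have : q / q' * (q / q') ≤ q / q' * 1 := mul_le_mul_of_nonneg_left (by linarith) h9
        linarith
      linarith
    have h4 : σ * q ^ 2 ≤ 2 * C * (q + 1) := by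
      have h5 : σ * (1 / (q + 1)) = σ / (q + 1) := by ring
      rw [h5, div_le_div_iff₀ (by linarith) (by positivity)] at h3
      exact h3
    have h5 : 4 * C < σ * q := by
      rw [div_lt_iff₀ hσ] at hbig
      have h6 : q1 * σ ≤ q * σ := mul_le_mul_of_nonneg_right hq1 hσ.le
      linarith
    have h6 : 4 * C * q < σ * q * q := mul_lt_mul_of_pos_right h5 (by linarith)
    have h7 : 2 * C * (q + 1) ≤ 4 * C * q := by nlinarith
    have h8 : σ * q ^ 2 = σ * q * q := by ring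
    linarith

theorem sq_close {x y δ M : ℝ} (h : |x - y| ≤ δ) (hx : |x| ≤ M) (hy : |y| ≤ M) : |x ^ 2 - y ^ 2| ≤ 2 * M * δ := by
  have e : x ^ 2 - y ^ 2 = (x + y) * (x - y) := by ring
  rw [e, abs_mul]
  have h1 : |x + y| ≤ 2 * M := (abs_add_le _ _).trans (by linarith)
  exact mul_le_mul h1 h (abs_nonneg _) ((abs_nonneg _).trans h1)

theorem sq_abs_le {x M : ℝ} (hx : |x| ≤ M) : |x ^ 2| ≤ M ^ 2 := by
  rw [abs_pow]
  exact pow_le_pow_left₀ (abs_nonneg _) hx 2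

/-- gap principle for three members -/
theorem triple (s : ℕ) (hs : 1 ≤ s) : ∃ Q0 : ℕ, ∀ a1 b1 m1 a2 b2 m2 a3 b3 m3 : ℕ, Q0 ≤ a1 → a1 < a2 → a2 < a3 →
    Sol a1 b1 m1 s → Sol a2 b2 m2 s → Sol a3 b3 m3 s → (2 * a1 + 1) ^ 39 ≤ (2 * a3 + 1) ^ 38 := by
  obtain ⟨C, hC, B0, hexp⟩ := expand s
  obtain ⟨c, hc, hmeas⟩ := measure (2 * s) (by omega)
  have hsr : (1 : ℝ) ≤ s := by exact_mod_cast hs
  obtain ⟨σ, hσ⟩ : ∃ σ : ℝ, σ = Real.sinh s / 3 := ⟨_, rfl⟩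
  have hσ0 : 0 < σ := by
    rw [hσ]
    have : 0 < Real.sinh s := Real.sinh_pos_iff.2 (by linarith)
    positivity
  have hcosh : 2 * Real.cosh ((2 * s : ℕ) : ℝ) = 2 + 36 * σ ^ 2 := by
    push_cast
    rw [Real.cosh_two_mul, Real.cosh_sq, hσ]
    ring
  obtain ⟨K1, hK1⟩ : ∃ K1 : ℝ, K1 = 4 * C * (18 * σ ^ 2 + 3) * (σ + 1) ^ 5 := ⟨_, rfl⟩
  have hK1pos : 0 < K1 := by rw [hK1]; positivity
  obtain ⟨K2, hK2⟩ : ∃ K2 : ℝ, K2 = 36 * K1 * (9 * (σ + 1) ^ 4) ^ 8 := ⟨_, rfl⟩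
  have hK2pos : 0 < K2 := by rw [hK2]; positivity
  obtain ⟨Q0, hQ0⟩ := exists_nat_gt (B0 + 4 * C / σ + 2 * C + K1 + K2 / c)
  refine ⟨Q0, ?_⟩
  intro a1 b1 m1 a2 b2 m2 a3 b3 m3 h1 h12 h23 hS1 hS2 hS3
  have hQa : (Q0 : ℝ) ≤ a1 := by exact_mod_cast h1
  have hCσ : 0 < 4 * C / σ := by positivity
  have hK2c : 0 < K2 / c := by positivity
  have hB0r : (0 : ℝ) ≤ B0 := Nat.cast_nonneg _
  have hB0 : B0 ≤ a1 := by
    have : (B0 : ℝ) ≤ a1 := by linarith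
    exact_mod_cast this
  have e1 := (hexp a1 b1 m1 (by have := hS1.hab; omega) hS1).1
  have e2 := (hexp a2 b2 m2 (by have := hS2.hab; omega) hS2).1
  have e3 := (hexp a3 b3 m3 (by have := hS3.hab; omega) hS3).1
  rw [← hσ] at e1 e2 e3
  have h12r : (a1 : ℝ) + 1 ≤ a2 := by exact_mod_cast h12
  have h23r : (a2 : ℝ) + 1 ≤ a3 := by exact_mod_cast h23
  obtain ⟨q1, hq1⟩ : ∃ q : ℝ, q = 2 * (a1 : ℝ) + 1 := ⟨_, rfl⟩
  obtain ⟨q2, hq2⟩ : ∃ q : ℝ, q = 2 * (a2 : ℝ) + 1 := ⟨_, rfl⟩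
  obtain ⟨q3, hq3⟩ : ∃ q : ℝ, q = 2 * (a3 : ℝ) + 1 := ⟨_, rfl⟩
  obtain ⟨p1, hp1⟩ : ∃ q : ℝ, q = 2 * (b1 : ℝ) + 1 := ⟨_, rfl⟩
  obtain ⟨p2, hp2⟩ : ∃ q : ℝ, q = 2 * (b2 : ℝ) + 1 := ⟨_, rfl⟩
  obtain ⟨p3, hp3⟩ : ∃ q : ℝ, q = 2 * (b3 : ℝ) + 1 := ⟨_, rfl⟩
  rw [← hq1, ← hp1] at e1
  rw [← hq2, ← hp2] at e2
  rw [← hq3, ← hp3] at e3
  have ha10 : (0 : ℝ) ≤ a1 := Nat.cast_nonneg _
  have hq1_1 : 1 ≤ q1 := by rw [hq1]; linarith
  have hq12 : q1 + 1 ≤ q2 := by rw [hq1, hq2]; linarith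
  have hq23 : q2 + 1 ≤ q3 := by rw [hq2, hq3]; linarith
  have hbig : 4 * C / σ < q1 := by rw [hq1]; linarith
  have hbig2 : 2 * C ≤ q1 := by rw [hq1]; linarith
  obtain ⟨R, hR⟩ : ∃ R : ℝ, R = q3 / q1 := ⟨_, rfl⟩
  have hR13 : q3 / q1 ≤ R := hR.ge
  have hR12 : q2 / q1 ≤ R := by
    rw [hR]
    exact div_le_div_of_nonneg_right (by linarith) (by linarith)
  have hR23 : q3 / q2 ≤ R := by
    rw [hR]
    exact div_le_div_of_nonneg_left (by linarith) (by linarith) (by linarith)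
  have hR1 : 1 ≤ R := by
    rw [hR, one_le_div (by linarith)]
    linarith
  obtain ⟨x1, x2, x3, x4⟩ := pair_all hσ0 hC hq1_1 hq12 le_rfl hq1_1 hR12 hbig hbig2 e1 e2
  obtain ⟨y1, y2, y3, y4⟩ := pair_all hσ0 hC hq1_1 (by linarith : q1 + 1 ≤ q3) le_rfl hq1_1 hR13 hbig hbig2 e1 e3
  obtain ⟨z1, z2, z3, z4⟩ := pair_all hσ0 hC (by linarith : 1 ≤ q2) hq23 (by linarith : q1 ≤ q2) hq1_1 hR23
    hbig hbig2 e2 e3
  -- the integers
  obtain ⟨H12, hH12⟩ : ∃ H : ℤ, (H : ℝ) = q2 * p1 - q1 * p2 :=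
    ⟨(2 * a2 + 1) * (2 * b1 + 1) - (2 * a1 + 1) * (2 * b2 + 1), by rw [hq1, hq2, hp1, hp2]; push_cast; ring⟩
  obtain ⟨H13, hH13⟩ : ∃ H : ℤ, (H : ℝ) = q3 * p1 - q1 * p3 :=
    ⟨(2 * a3 + 1) * (2 * b1 + 1) - (2 * a1 + 1) * (2 * b3 + 1), by rw [hq1, hq3, hp1, hp3]; push_cast; ring⟩
  obtain ⟨H23, hH23⟩ : ∃ H : ℤ, (H : ℝ) = q3 * p2 - q2 * p3 :=
    ⟨(2 * a3 + 1) * (2 * b2 + 1) - (2 * a2 + 1) * (2 * b3 + 1), by rw [hq2, hq3, hp2, hp3]; push_cast; ring⟩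
  rw [← hH12] at x1 x2 x4
  rw [← hH13] at y1 y2 y4
  rw [← hH23] at z1 z2 z4
  obtain ⟨M, hM⟩ : ∃ M : ℝ, M = (σ + 1) * R := ⟨_, rfl⟩
  rw [← hM] at x2 x3 y2 y3 z2 z3
  have hM1 : 1 ≤ M := by
    rw [hM]
    exact one_le_mul_of_one_le_of_one_le (by linarith) hR1
  obtain ⟨δ, hδ⟩ : ∃ δ : ℝ, δ = 2 * C * R / q1 ^ 2 := ⟨_, rfl⟩
  rw [← hδ] at x1 y1 z1
  have hδ0 : 0 ≤ δ := (abs_nonneg _).trans x1
  obtain ⟨A, hA⟩ : ∃ A : ℤ, A = Af (H12 ^ 2) (H13 ^ 2) (H23 ^ 2) := ⟨_, rfl⟩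
  obtain ⟨B, hB⟩ : ∃ B : ℤ, B = H12 ^ 2 * H13 ^ 2 * H23 ^ 2 := ⟨_, rfl⟩
  have hAr : (A : ℝ) = Af ((H12 : ℝ) ^ 2) ((H13 : ℝ) ^ 2) ((H23 : ℝ) ^ 2) := by
    rw [hA]
    unfold Af
    push_cast
    ring
  have hBr : (B : ℝ) = (H12 : ℝ) ^ 2 * (H13 : ℝ) ^ 2 * (H23 : ℝ) ^ 2 := by
    rw [hB]
    push_cast
    ring
  have hid := ident (σ := σ) (x := q1) (y := q2) (z := q3) (by linarith) (by linarith) (by linarith)
  have hAc := Af_close (sq_abs_le x2) (sq_abs_le y2) (sq_abs_le z2) (sq_abs_le x3) (sq_abs_le y3) (sq_abs_le z3)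
    (sq_close x1 x2 x3) (sq_close y1 y2 y3) (sq_close z1 z2 z3)
  have hBc := Bf_close (sq_abs_le x2) (sq_abs_le y2) (sq_abs_le y3) (sq_abs_le z3)
    (sq_close x1 x2 x3) (sq_close y1 y2 y3) (sq_close z1 z2 z3)
  have hAle := Af_le (sq_abs_le x2) (sq_abs_le y2) (sq_abs_le z2)
  rw [← hAr] at hAc hAle
  rw [← hBr] at hBc
  rw [← hid] at hBc
  obtain ⟨As, hAs⟩ : ∃ As : ℝ, As = Af ((σ * (q2 / q1 - q1 / q2)) ^ 2) ((σ * (q3 / q1 - q1 / q3)) ^ 2)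
    ((σ * (q3 / q2 - q2 / q3)) ^ 2) := ⟨_, rfl⟩
  rw [← hAs] at hAc hBc
  have hM2 : (M ^ 2) ≤ (M ^ 2) ^ 2 := le_self_pow₀ (one_le_pow₀ hM1) (by norm_num)
  have hX : |σ ^ 2 * A - B| ≤ K1 * R ^ 6 / q1 ^ 2 := by
    have t1 : σ ^ 2 * A - B = σ ^ 2 * (A - As) - (B - σ ^ 2 * As) := by ring
    rw [t1]
    refine (abs_sub _ _).trans ?_
    rw [abs_mul, abs_of_nonneg (sq_nonneg σ)]
    have t2 : σ ^ 2 * |(A : ℝ) - As| ≤ σ ^ 2 * (18 * (M ^ 2) ^ 2 * (2 * M * δ)) := by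
      apply mul_le_mul_of_nonneg_left _ (sq_nonneg σ)
      refine hAc.trans ?_
      apply mul_le_mul_of_nonneg_right _ (by positivity)
      linarith
    have t3 : K1 * R ^ 6 / q1 ^ 2 = (18 * σ ^ 2 + 3) * (M ^ 2) ^ 2 * (2 * M * δ) := by
      rw [hK1, hM, hδ]
      ring
    rw [t3]
    linarith
  have hq1sq : 0 < q1 ^ 2 := by positivity
  have hR38 : R ^ 6 ≤ R ^ 38 := pow_le_pow_right₀ hR1 (by norm_num)
  have key : q1 ^ 2 ≤ (K1 + K2 / c) * R ^ 38 := by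
    by_cases hA0 : A = 0
    · rw [hA0, Int.cast_zero, mul_zero, zero_sub, abs_neg] at hX
      have hB1 : (1 : ℝ) ≤ |(B : ℝ)| := by
        have h5 : 0 < H12 := by exact_mod_cast x4
        have h6 : 0 < H13 := by exact_mod_cast y4
        have h7 : 0 < H23 := by exact_mod_cast z4
        have h8 : 0 < B := by rw [hB]; positivity
        have h9 : (1 : ℤ) ≤ |B| := Int.one_le_abs h8.ne'
        exact_mod_cast h9
      have h10 := hB1.trans hX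
      rw [le_div_iff₀ hq1sq, one_mul] at h10
      have h11 : K1 * R ^ 6 ≤ K1 * R ^ 38 := mul_le_mul_of_nonneg_left hR38 hK1pos.le
      have h12 : 0 ≤ K2 / c * R ^ 38 := by positivity
      linarith
    · have h5 := hmeas A (2 * A + 36 * B) hA0
      rw [hcosh] at h5
      have h6 : (A : ℝ) * (2 + 36 * σ ^ 2) - ((2 * A + 36 * B : ℤ) : ℝ) = 36 * (σ ^ 2 * A - B) := by
        push_cast
        ring
      rw [h6, abs_mul, abs_of_pos (by norm_num : (0 : ℝ) < 36)] at h5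
      have h7 : |(A : ℝ)| ^ 8 ≤ (9 * (σ + 1) ^ 4 * R ^ 4) ^ 8 := by
        apply pow_le_pow_left₀ (abs_nonneg _)
        refine hAle.trans (le_of_eq ?_)
        rw [hM]
        ring
      have h8 : c ≤ 36 * (K1 * R ^ 6 / q1 ^ 2) * (9 * (σ + 1) ^ 4 * R ^ 4) ^ 8 :=
        h5.trans (mul_le_mul (mul_le_mul_of_nonneg_left hX (by norm_num)) h7 (by positivity) (by positivity))
      have h9 : 36 * (K1 * R ^ 6 / q1 ^ 2) * (9 * (σ + 1) ^ 4 * R ^ 4) ^ 8 = K2 * R ^ 38 / q1 ^ 2 := by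
        rw [hK2]
        ring
      rw [h9, le_div_iff₀ hq1sq] at h8
      have h10 : q1 ^ 2 ≤ K2 / c * R ^ 38 := by
        have : K2 / c * R ^ 38 = (K2 * R ^ 38) / c := by ring
        rw [this, le_div_iff₀ hc]
        linarith
      have h11 : 0 ≤ K1 * R ^ 38 := by positivity
      linarith
  have hKq : K1 + K2 / c ≤ q1 := by rw [hq1]; linarith
  have key2 : q1 ^ 2 ≤ q1 * R ^ 38 := key.trans (mul_le_mul_of_nonneg_right hKq (by positivity))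
  have key3 : q1 ≤ R ^ 38 := by
    have : q1 * q1 ≤ q1 * R ^ 38 := by rw [← sq]; exact key2
    exact le_of_mul_le_mul_left this (by linarith)
  have key4 : q1 ^ 39 ≤ q3 ^ 38 := by
    rw [hR, div_pow, le_div_iff₀ (by positivity)] at key3
    calc q1 ^ 39 = q1 * q1 ^ 38 := by ring
      _ ≤ q3 ^ 38 := key3
  rw [hq1, hq3] at key4
  exact_mod_cast key4

end UIL
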