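import Mathlib

/-!
# MP_08f38f_nt: an irrationality measure for `2 cosh t`, `t ≥ 2` an integer (helper75)

For `n` even and `f = X ^ n (t ^ 2 - X ^ 2) ^ n` the sum `S` of the derivatives satisfies
`2 cosh t * S 0 - S t - S (-t) = 2 ∫_0^t f(x) sinh (t - x) dx`, and `S 0`, `S t`, `S (-t)` are divisible by `n!`.
-/

namespace UIL

open Polynomial
open scoped Nat

/-- the auxiliary polynomial -/
noncomputable def fp (t n : ℕ) : ℤ[X] := X ^ n * (C ((t : ℤ) ^ 2) - X ^ 2) ^ n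

theorem eval0_sumIDeriv_X_pow (k : ℕ) : eval 0 (sumIDeriv (X ^ k : ℤ[X])) = (k ! : ℤ) := by
  induction k with
  | zero =>
    have : (X ^ 0 : ℤ[X]) = C 1 := by simp
    rw [this, sumIDeriv_C]
    simp
  | succ k ih =>
    rw [sumIDeriv_eq_self_add, ← sumIDeriv_derivative, derivative_X_pow]
    have h1 : (C ((k + 1 : ℕ) : ℤ) * X ^ (k + 1 - 1) : ℤ[X]) = ((k + 1 : ℕ) : ℤ) • (X ^ k : ℤ[X]) := by
      rw [Nat.add_sub_cancel, smul_eq_C_mul]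
    rw [h1, map_smul, eval_add, eval_smul, ih, eval_pow, eval_X, Nat.factorial_succ]
    push_cast
    simp

theorem fp_eq (t n : ℕ) : fp t n = ∑ j ∈ Finset.range (n + 1),
    ((-1) ^ j * (t : ℤ) ^ (2 * (n - j)) * (n.choose j : ℤ)) • (X ^ (n + 2 * j) : ℤ[X]) := by
  unfold fp
  have h : (C ((t : ℤ) ^ 2) - X ^ 2 : ℤ[X]) = (- X ^ 2) + C ((t : ℤ) ^ 2) := by ring
  rw [h, add_pow, Finset.mul_sum]
  refine Finset.sum_congr rfl fun j _ => ?_
  rw [smul_eq_C_mul, neg_pow, pow_add]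
  simp only [map_mul, map_pow, map_neg, map_one, map_natCast, pow_mul]
  ring

theorem abs_S0_le (t n : ℕ) : |eval 0 (sumIDeriv (fp t n))| ≤ ((3 * n)! : ℤ) * (1 + (t : ℤ) ^ 2) ^ n := by
  rw [fp_eq, map_sum, eval_finsetSum]
  refine (Finset.abs_sum_le_sum_abs _ _).trans ?_
  rw [add_pow, Finset.mul_sum]
  refine Finset.sum_le_sum fun j hj => ?_
  rw [Finset.mem_range] at hj
  rw [map_smul, eval_smul, eval0_sumIDeriv_X_pow, smul_eq_mul, abs_mul, abs_mul, abs_mul, abs_pow, abs_neg, abs_one,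
    one_pow, one_mul, Nat.abs_cast, Nat.abs_cast, abs_of_nonneg (by positivity : (0 : ℤ) ≤ (t : ℤ) ^ (2 * (n - j)))]
  have h1 : ((n + 2 * j)! : ℤ) ≤ ((3 * n)! : ℤ) := by
    exact_mod_cast Nat.factorial_le (by omega)
  have h2 : (0 : ℤ) ≤ (t : ℤ) ^ (2 * (n - j)) * (n.choose j : ℤ) := by positivity
  calc (t : ℤ) ^ (2 * (n - j)) * (n.choose j : ℤ) * ((n + 2 * j)! : ℤ)
      ≤ (t : ℤ) ^ (2 * (n - j)) * (n.choose j : ℤ) * ((3 * n)! : ℤ) := mul_le_mul_of_nonneg_left h1 h2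
    _ = ((3 * n)! : ℤ) * (1 * ((t : ℤ) ^ 2) ^ (n - j) * (n.choose j : ℤ)) := by
        rw [← pow_mul]; ring

theorem fp_dvd (t n : ℕ) : ∃ P Q : ℤ, eval 0 (sumIDeriv (fp t n)) = (n ! : ℤ) * P ∧
    eval (t : ℤ) (sumIDeriv (fp t n)) + eval (-(t : ℤ)) (sumIDeriv (fp t n)) = (n ! : ℤ) * Q := by
  obtain ⟨gp, -, h⟩ := aeval_sumIDeriv ℤ (fp t n) n
  have key : ∀ r : ℤ, (X - C r) ^ n ∣ fp t n → eval r (sumIDeriv (fp t n)) = (n ! : ℤ) * eval r gp := by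
    intro r hr
    have h1 := h r (by simpa using hr)
    simpa [Polynomial.aeval_def] using h1
  have h0 : (X - C (0 : ℤ)) ^ n ∣ fp t n := by
    rw [C_0, sub_zero]
    exact Dvd.intro _ rfl
  have hfac : (C ((t : ℤ) ^ 2) - X ^ 2 : ℤ[X]) = (X - C (t : ℤ)) * (-(X + C (t : ℤ))) := by
    rw [C_pow]
    ring
  have hfac' : (C ((t : ℤ) ^ 2) - X ^ 2 : ℤ[X]) = (X - C (-(t : ℤ))) * (-(X - C (t : ℤ))) := by
    rw [C_pow, C_neg]
    ring
  have h1 : (X - C (t : ℤ)) ^ n ∣ fp t n := by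
    unfold fp
    rw [hfac, mul_pow]
    exact Dvd.dvd.mul_left (Dvd.intro _ rfl) _
  have h2 : (X - C (-(t : ℤ))) ^ n ∣ fp t n := by
    unfold fp
    rw [hfac', mul_pow]
    exact Dvd.dvd.mul_left (Dvd.intro _ rfl) _
  refine ⟨eval 0 gp, eval (t : ℤ) gp + eval (-(t : ℤ)) gp, key 0 h0, ?_⟩
  rw [key _ h1, key _ h2]
  ring

/-- the real version of the sum of derivatives -/
noncomputable def Sr (t n : ℕ) : ℝ[X] := (sumIDeriv (fp t n)).map (Int.castRingHom ℝ)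

theorem eval_Sr (t n : ℕ) (r : ℤ) : eval (r : ℝ) (Sr t n) = ((eval r (sumIDeriv (fp t n)) : ℤ) : ℝ) := by
  unfold Sr
  rw [eval_map, eval₂_at_intCast]
  rfl

theorem Sr_eq (t n : ℕ) (x : ℝ) : eval x (Sr t n) = x ^ n * ((t : ℝ) ^ 2 - x ^ 2) ^ n + eval x (derivative (Sr t n)) := by
  have h : Sr t n = (fp t n).map (Int.castRingHom ℝ) + derivative (Sr t n) := by
    unfold Sr
    conv_lhs => rw [sumIDeriv_eq_self_add]
    rw [Polynomial.map_add, derivative_map]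
  conv_lhs => rw [h]
  rw [eval_add]
  congr 1
  unfold fp
  simp

/-- the auxiliary function -/
noncomputable def Hf (t n : ℕ) (x : ℝ) : ℝ :=
  eval x (Sr t n) * Real.exp (t - x) + eval (-x) (Sr t n) * Real.exp (-(t - x))

theorem hasDerivAt_Hf (t n : ℕ) (hn : Even n) (x : ℝ) :
    HasDerivAt (Hf t n) (-(2 * (x ^ n * ((t : ℝ) ^ 2 - x ^ 2) ^ n) * Real.sinh (t - x))) x := by
  have h1 : HasDerivAt (fun x : ℝ => eval x (Sr t n)) (eval x (derivative (Sr t n))) x := (Sr t n).hasDerivAt x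
  have h2 : HasDerivAt (fun x : ℝ => eval (-x) (Sr t n)) (-(eval (-x) (derivative (Sr t n)))) x := by
    have := ((Sr t n).hasDerivAt (-x)).comp x (hasDerivAt_neg x)
    exact this.congr_deriv (by ring)
  have h3 : HasDerivAt (fun x : ℝ => Real.exp (t - x)) (-Real.exp (t - x)) x := by
    have := ((hasDerivAt_id x).const_sub (t : ℝ)).exp
    simpa using this
  have h4 : HasDerivAt (fun x : ℝ => Real.exp (-(t - x))) (Real.exp (-(t - x))) x := by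
    have := (((hasDerivAt_id x).const_sub (t : ℝ)).neg).exp
    simpa using this
  have h := (h1.mul h3).add (h2.mul h4)
  have e : -(2 * (x ^ n * ((t : ℝ) ^ 2 - x ^ 2) ^ n) * Real.sinh (t - x)) =
      eval x (derivative (Sr t n)) * Real.exp (t - x) + eval x (Sr t n) * (-Real.exp (t - x)) +
      (-(eval (-x) (derivative (Sr t n))) * Real.exp (-(t - x)) + eval (-x) (Sr t n) * Real.exp (-(t - x))) := by
    rw [Sr_eq t n x, Sr_eq t n (-x), Real.sinh_eq, hn.neg_pow x, neg_sq]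
    ring
  rw [e]
  exact h

theorem Hf_zero (t n : ℕ) : Hf t n 0 = 2 * Real.cosh t * ((eval 0 (sumIDeriv (fp t n)) : ℤ) : ℝ) := by
  unfold Hf
  rw [neg_zero, sub_zero, Real.cosh_eq]
  have h := eval_Sr t n 0
  rw [Int.cast_zero] at h
  rw [h]
  ring

theorem Hf_t (t n : ℕ) : Hf t n t = ((eval (t : ℤ) (sumIDeriv (fp t n)) : ℤ) : ℝ) +
    ((eval (-(t : ℤ)) (sumIDeriv (fp t n)) : ℤ) : ℝ) := by
  unfold Hf
  have h := eval_Sr t n t
  have h' := eval_Sr t n (-(t : ℤ))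
  rw [Int.cast_natCast] at h
  rw [Int.cast_neg, Int.cast_natCast] at h'
  rw [h, h', sub_self, neg_zero, Real.exp_zero]
  ring

theorem abs_le_of_mem {t x : ℝ} (ht : 0 ≤ t) (hx : 0 ≤ x) (hxt : x ≤ t) : 0 ≤ x * (t ^ 2 - x ^ 2) ∧
    x * (t ^ 2 - x ^ 2) ≤ t ^ 3 := by
  have h1 : 0 ≤ t ^ 2 - x ^ 2 := by nlinarith
  refine ⟨mul_nonneg hx h1, ?_⟩
  calc x * (t ^ 2 - x ^ 2) ≤ t * (t ^ 2 - x ^ 2) := mul_le_mul_of_nonneg_right hxt h1
    _ ≤ t * t ^ 2 := mul_le_mul_of_nonneg_left (by nlinarith [sq_nonneg x]) ht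
    _ = t ^ 3 := by ring

/-- upper bound -/
theorem Hf_upper (t n : ℕ) (hn : Even n) : Hf t n 0 - Hf t n t ≤ (t : ℝ) * Real.exp t * ((t : ℝ) ^ 3) ^ n := by
  have ht : (0 : ℝ) ≤ t := Nat.cast_nonneg t
  have hcont : ContinuousOn (Hf t n) (Set.Icc 0 (t : ℝ)) := fun x _ =>
    (hasDerivAt_Hf t n hn x).continuousAt.continuousWithinAt
  have h := Convex.norm_image_sub_le_of_norm_hasDerivWithin_le (f := Hf t n) (s := Set.Icc 0 (t : ℝ))
    (f' := fun x => -(2 * (x ^ n * ((t : ℝ) ^ 2 - x ^ 2) ^ n) * Real.sinh (t - x)))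
    (C := Real.exp t * ((t : ℝ) ^ 3) ^ n) (x := 0) (y := (t : ℝ))
    (fun x _ => (hasDerivAt_Hf t n hn x).hasDerivWithinAt) (fun x hx => ?_) (convex_Icc _ _)
    (Set.left_mem_Icc.2 ht) (Set.right_mem_Icc.2 ht)
  · rw [sub_zero, Real.norm_eq_abs, Real.norm_eq_abs, abs_of_nonneg ht] at h
    have h1 := neg_abs_le (Hf t n t - Hf t n 0)
    nlinarith
  · obtain ⟨h0, h1⟩ := abs_le_of_mem ht hx.1 hx.2
    rw [Real.norm_eq_abs, abs_neg, ← mul_pow]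
    have h2 : 0 ≤ (x * ((t : ℝ) ^ 2 - x ^ 2)) ^ n := pow_nonneg h0 n
    have h3 : 0 ≤ Real.sinh (t - x) := Real.sinh_nonneg_iff.2 (by linarith [hx.2])
    rw [abs_of_nonneg (by positivity)]
    have h4 : (x * ((t : ℝ) ^ 2 - x ^ 2)) ^ n ≤ ((t : ℝ) ^ 3) ^ n := pow_le_pow_left₀ h0 h1 n
    have h5 : 2 * Real.sinh (t - x) ≤ Real.exp t := by
      rw [Real.sinh_eq]
      have h6 : Real.exp (t - x) ≤ Real.exp t := Real.exp_le_exp.2 (by linarith [hx.1])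
      have h7 := Real.exp_pos (-(t - x))
      linarith
    calc 2 * (x * ((t : ℝ) ^ 2 - x ^ 2)) ^ n * Real.sinh (t - x)
        = (2 * Real.sinh (t - x)) * (x * ((t : ℝ) ^ 2 - x ^ 2)) ^ n := by ring
      _ ≤ Real.exp t * ((t : ℝ) ^ 3) ^ n := mul_le_mul h5 h4 h2 (Real.exp_pos _).le

/-- lower bound -/
theorem Hf_lower (t n : ℕ) (hn : Even n) (ht2 : 2 ≤ t) : 1 ≤ Hf t n 0 - Hf t n t := by
  have ht : (2 : ℝ) ≤ t := by exact_mod_cast ht2
  have hanti : AntitoneOn (Hf t n) (Set.Icc 0 (t : ℝ)) := by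
    refine antitoneOn_of_deriv_nonpos (convex_Icc _ _) (fun x _ =>
      (hasDerivAt_Hf t n hn x).continuousAt.continuousWithinAt)
      (fun x _ => (hasDerivAt_Hf t n hn x).differentiableAt.differentiableWithinAt) ?_
    intro x hx
    rw [interior_Icc] at hx
    rw [(hasDerivAt_Hf t n hn x).deriv, neg_nonpos, ← mul_pow]
    have h0 := (abs_le_of_mem (by linarith : (0 : ℝ) ≤ t) hx.1.le hx.2.le).1
    have h3 : 0 ≤ Real.sinh (t - x) := Real.sinh_nonneg_iff.2 (by linarith [hx.2])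
    positivity
  have h1 : Hf t n (t / 4) ≤ Hf t n 0 := hanti ⟨le_rfl, by linarith⟩ ⟨by linarith, by linarith⟩ (by linarith)
  have h2 : Hf t n t ≤ Hf t n (t / 2) := hanti ⟨by linarith, by linarith⟩ ⟨by linarith, by linarith⟩ (by linarith)
  have h3 : Hf t n (t / 2) - Hf t n (t / 4) ≤ -(t : ℝ) * ((t : ℝ) / 2 - t / 4) := by
    refine (convex_Icc ((t : ℝ) / 4) (t / 2)).image_sub_le_mul_sub_of_deriv_le (fun x _ =>
      (hasDerivAt_Hf t n hn x).continuousAt.continuousWithinAt)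
      (fun x _ => (hasDerivAt_Hf t n hn x).differentiableAt.differentiableWithinAt) ?_ _
      ⟨le_rfl, by linarith⟩ _ ⟨by linarith, le_rfl⟩ (by linarith)
    intro x hx
    rw [interior_Icc] at hx
    rw [(hasDerivAt_Hf t n hn x).deriv, neg_le_neg_iff, ← mul_pow]
    have hx1 := hx.1
    have hx2 := hx.2
    have h4 : 1 ≤ x * ((t : ℝ) ^ 2 - x ^ 2) := by
      have h5 : (3 / 4) * (t : ℝ) ^ 2 ≤ (t : ℝ) ^ 2 - x ^ 2 := by nlinarith
      have h6 : 3 ≤ (t : ℝ) ^ 2 - x ^ 2 := by nlinarith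
      nlinarith
    have h5 : (1 : ℝ) ≤ (x * ((t : ℝ) ^ 2 - x ^ 2)) ^ n := one_le_pow₀ h4
    have h6 : (t : ℝ) / 2 ≤ Real.sinh (t - x) :=
      (by linarith : (t : ℝ) / 2 ≤ t - x).trans (Real.self_le_sinh_iff.2 (by linarith))
    nlinarith
  nlinarith

theorem one_step (t n : ℕ) (hn : Even n) (ht2 : 2 ≤ t) (A B : ℤ) (hA : A ≠ 0)
    (h : 2 * |(A : ℝ)| * ((t : ℝ) * Real.exp t * ((t : ℝ) ^ 3) ^ n) ≤ (n ! : ℝ)) :
    1 ≤ 2 * (((3 * n)! : ℝ) * (1 + (t : ℝ) ^ 2) ^ n) * |(A : ℝ) * (2 * Real.cosh t) - B| := by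
  obtain ⟨P, Q, hP, hQ⟩ := fp_dvd t n
  have hup := Hf_upper t n hn
  have hlo := Hf_lower t n hn ht2
  have hJ : Hf t n 0 - Hf t n t = 2 * Real.cosh t * ((n ! : ℝ) * P) - (n ! : ℝ) * Q := by
    rw [Hf_zero, Hf_t, hP]
    have : ((eval (t : ℤ) (sumIDeriv (fp t n)) : ℤ) : ℝ) + ((eval (-(t : ℤ)) (sumIDeriv (fp t n)) : ℤ) : ℝ) =
        (((n ! : ℤ) * Q : ℤ) : ℝ) := by
      rw [← hQ]
      push_cast
      ring
    rw [this]
    push_cast
    ring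
  have hE : |(n ! : ℝ) * P| ≤ ((3 * n)! : ℝ) * (1 + (t : ℝ) ^ 2) ^ n := by
    have h1 := abs_S0_le t n
    rw [hP] at h1
    exact_mod_cast h1
  set J := Hf t n 0 - Hf t n t with hJdef
  set E : ℝ := ((3 * n)! : ℝ) * (1 + (t : ℝ) ^ 2) ^ n with hEdef
  set ε := (A : ℝ) * (2 * Real.cosh t) - B with hε
  have hAr : (1 : ℝ) ≤ |(A : ℝ)| := by
    have h1 : (1 : ℤ) ≤ |A| := Int.one_le_abs hA
    exact_mod_cast h1
  have hN : (1 : ℝ) ≤ (n ! : ℝ) := by exact_mod_cast Nat.one_le_iff_ne_zero.2 (Nat.factorial_ne_zero n)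
  have hmain : (n ! : ℝ) * ((B * P - A * Q : ℤ) : ℝ) = A * J - ((n ! : ℝ) * P) * ε := by
    rw [hJ, hε]
    push_cast
    ring
  have hEε : |((n ! : ℝ) * P) * ε| ≤ E * |ε| := by
    rw [abs_mul]
    exact mul_le_mul_of_nonneg_right hE (abs_nonneg _)
  have hAJ : |(A : ℝ) * J| ≤ |(A : ℝ)| * ((t : ℝ) * Real.exp t * ((t : ℝ) ^ 3) ^ n) := by
    rw [abs_mul, abs_of_nonneg (by linarith : 0 ≤ J)]
    exact mul_le_mul_of_nonneg_left hup (abs_nonneg _)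
  by_cases hW : (B * P - A * Q : ℤ) = 0
  · rw [hW, Int.cast_zero, mul_zero] at hmain
    have h1 : (A : ℝ) * J = ((n ! : ℝ) * P) * ε := by linarith
    have h2 : (1 : ℝ) ≤ |(A : ℝ) * J| := by
      rw [abs_mul, abs_of_nonneg (by linarith : 0 ≤ J)]
      nlinarith
    rw [h1] at h2
    have h3 := abs_nonneg (((n ! : ℝ) * P) * ε)
    linarith
  · have h1 : (1 : ℝ) ≤ |((B * P - A * Q : ℤ) : ℝ)| := by
      have h2 := Int.one_le_abs hW
      exact_mod_cast h2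
    have h2 : (n ! : ℝ) ≤ |(n ! : ℝ) * ((B * P - A * Q : ℤ) : ℝ)| := by
      rw [abs_mul, abs_of_nonneg (by linarith : (0 : ℝ) ≤ (n ! : ℝ))]
      nlinarith
    rw [hmain] at h2
    have h3 := abs_sub (A * J) (((n ! : ℝ) * P) * ε)
    linarith

theorem factorial_three_mul_le (m : ℕ) : (3 * m)! ≤ 27 ^ m * (m !) ^ 3 := by
  induction m with
  | zero => simp
  | succ m ih =>
    have h1 : (3 * (m + 1))! = (3 * m + 3) * (3 * m + 2) * (3 * m + 1) * (3 * m)! := by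
      rw [show 3 * (m + 1) = 3 * m + 2 + 1 by ring, Nat.factorial_succ, Nat.factorial_succ, Nat.factorial_succ]
      ring
    have h2 : (3 * m + 3) * (3 * m + 2) * (3 * m + 1) ≤ 27 * (m + 1) ^ 3 := by
      nlinarith [sq_nonneg m]
    rw [h1, Nat.factorial_succ]
    calc (3 * m + 3) * (3 * m + 2) * (3 * m + 1) * (3 * m)! ≤ (27 * (m + 1) ^ 3) * (27 ^ m * (m !) ^ 3) :=
          Nat.mul_le_mul h2 ih
      _ = 27 ^ (m + 1) * ((m + 1) * m !) ^ 3 := by ring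

theorem sq_le_four_pow (m : ℕ) : m ^ 2 ≤ 4 ^ m := by
  induction m with
  | zero => simp
  | succ m ih =>
    rcases Nat.eq_zero_or_pos m with h | h
    · subst h; norm_num
    · calc (m + 1) ^ 2 ≤ 4 * m ^ 2 := by nlinarith
        _ ≤ 4 * 4 ^ m := by omega
        _ = 4 ^ (m + 1) := by ring

theorem fac_step (k : ℕ) (hk : 1 ≤ k) : (2 * k)! ≤ (2 * k) ^ 2 * (2 * (k - 1))! := by
  obtain ⟨j, rfl⟩ : ∃ j, k = j + 1 := ⟨k - 1, by omega⟩
  rw [Nat.add_sub_cancel, show 2 * (j + 1) = 2 * j + 1 + 1 by ring, Nat.factorial_succ, Nat.factorial_succ]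
  nlinarith [Nat.factorial_pos (2 * j)]

/-- the irrationality measure -/
theorem measure (t : ℕ) (ht2 : 2 ≤ t) : ∃ c : ℝ, 0 < c ∧ ∀ A B : ℤ, A ≠ 0 →
    c ≤ |(A : ℝ) * (2 * Real.cosh t) - B| * |(A : ℝ)| ^ 8 := by
  have ht : (2 : ℝ) ≤ t := by exact_mod_cast ht2
  set T : ℝ := 2 * t * Real.exp t with hT
  have hTpos : 0 < T := by positivity
  set Y : ℝ := (4 * (t : ℝ) ^ 3) ^ 2 with hY
  have hYpos : 0 < Y := by positivity
  set C1 : ℝ := T ^ 2 * Real.exp Y with hC1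
  have hC1pos : 0 < C1 := by positivity
  set C2 : ℝ := Real.exp (27 * (1 + (t : ℝ) ^ 2)) with hC2
  have hC2pos : 0 < C2 := by positivity
  refine ⟨1 / (2 * C2 * C1 ^ 4), by positivity, ?_⟩
  intro A B hA
  have hAr : (1 : ℝ) ≤ |(A : ℝ)| := by
    have h1 : (1 : ℤ) ≤ |A| := Int.one_le_abs hA
    exact_mod_cast h1
  have hex : ∃ k : ℕ, |(A : ℝ)| * (T * ((t : ℝ) ^ 3) ^ (2 * k)) ≤ ((2 * k)! : ℝ) := by
    have h1 := FloorSemiring.tendsto_pow_div_factorial_atTop ((t : ℝ) ^ 3)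
    have h2 : Filter.Tendsto (fun k : ℕ => 2 * k) Filter.atTop Filter.atTop :=
      Filter.tendsto_id.const_mul_atTop' (by norm_num)
    have h3 := (h1.comp h2).eventually (gt_mem_nhds (show (0 : ℝ) < 1 / (|(A : ℝ)| * T) by positivity))
    obtain ⟨k, hk⟩ := h3.exists
    refine ⟨k, ?_⟩
    have hk' : ((t : ℝ) ^ 3) ^ (2 * k) / ((2 * k)! : ℝ) < 1 / (|(A : ℝ)| * T) := hk
    rw [div_lt_div_iff₀ (by positivity) (by positivity)] at hk'
    linarith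
  classical
  set k := Nat.find hex with hk
  have hk1 : |(A : ℝ)| * (T * ((t : ℝ) ^ 3) ^ (2 * k)) ≤ ((2 * k)! : ℝ) := Nat.find_spec hex
  have hkpos : 1 ≤ k := by
    by_contra h0
    have h0' : k = 0 := by omega
    rw [h0'] at hk1
    simp only [mul_zero, pow_zero, mul_one, Nat.factorial_zero, Nat.cast_one] at hk1
    have h2 : (1 : ℝ) ≤ Real.exp t := Real.one_le_exp (by linarith)
    have h3 : 4 ≤ T := by rw [hT]; nlinarith
    nlinarith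
  have hk2 : ((2 * (k - 1))! : ℝ) < |(A : ℝ)| * (T * ((t : ℝ) ^ 3) ^ (2 * (k - 1))) := by
    have := Nat.find_min hex (m := k - 1) (by omega)
    exact not_le.1 this
  set x : ℝ := ((2 * k)! : ℝ) with hx
  have hx1 : (1 : ℝ) ≤ x := by
    rw [hx]
    exact_mod_cast Nat.one_le_iff_ne_zero.2 (Nat.factorial_ne_zero _)
  -- `x ≤ |A| T (4 t^3)^(2k)`
  have hxle : x ≤ |(A : ℝ)| * (T * (4 * (t : ℝ) ^ 3) ^ (2 * k)) := by
    have h1 := fac_step k hkpos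
    have h2 : ((2 * k : ℕ) : ℝ) ^ 2 ≤ 4 ^ (2 * k) := by exact_mod_cast sq_le_four_pow (2 * k)
    have h3 : x ≤ ((2 * k : ℕ) : ℝ) ^ 2 * ((2 * (k - 1))! : ℝ) := by
      rw [hx]
      exact_mod_cast h1
    have h4 : ((t : ℝ) ^ 3) ^ (2 * (k - 1)) ≤ ((t : ℝ) ^ 3) ^ (2 * k) :=
      pow_le_pow_right₀ (one_le_pow₀ (by linarith)) (by omega)
    calc x ≤ ((2 * k : ℕ) : ℝ) ^ 2 * ((2 * (k - 1))! : ℝ) := h3
      _ ≤ 4 ^ (2 * k) * (|(A : ℝ)| * (T * ((t : ℝ) ^ 3) ^ (2 * (k - 1)))) :=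
          mul_le_mul h2 hk2.le (by positivity) (by positivity)
      _ ≤ 4 ^ (2 * k) * (|(A : ℝ)| * (T * ((t : ℝ) ^ 3) ^ (2 * k))) := by gcongr
      _ = |(A : ℝ)| * (T * (4 * (t : ℝ) ^ 3) ^ (2 * k)) := by rw [mul_pow 4]; ring
  have hexp : ∀ y : ℝ, 0 ≤ y → y ^ (2 * k) ≤ Real.exp y * x := by
    intro y hy
    have h1 := Real.pow_div_factorial_le_exp y hy (2 * k)
    rw [div_le_iff₀ (by positivity)] at h1
    exact h1
  have hxA : x ≤ C1 * |(A : ℝ)| ^ 2 := by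
    have h1 : x ^ 2 ≤ (|(A : ℝ)| * (T * (4 * (t : ℝ) ^ 3) ^ (2 * k))) ^ 2 := pow_le_pow_left₀ (by linarith) hxle 2
    have h2 : (|(A : ℝ)| * (T * (4 * (t : ℝ) ^ 3) ^ (2 * k))) ^ 2 = |(A : ℝ)| ^ 2 * T ^ 2 * Y ^ (2 * k) := by
      rw [hY]
      generalize 4 * (t : ℝ) ^ 3 = z
      ring
    have h3 := hexp Y hYpos.le
    have h4 : x ^ 2 ≤ |(A : ℝ)| ^ 2 * T ^ 2 * (Real.exp Y * x) := by
      rw [h2] at h1
      exact h1.trans (mul_le_mul_of_nonneg_left h3 (by positivity))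
    have h5 : x * x ≤ (C1 * |(A : ℝ)| ^ 2) * x := by
      rw [hC1]
      nlinarith
    exact le_of_mul_le_mul_right h5 (by linarith)
  have hE : ((3 * (2 * k))! : ℝ) * (1 + (t : ℝ) ^ 2) ^ (2 * k) ≤ C2 * x ^ 4 := by
    have h1 : ((3 * (2 * k))! : ℝ) ≤ 27 ^ (2 * k) * x ^ 3 := by
      rw [hx]
      exact_mod_cast factorial_three_mul_le (2 * k)
    have h2 := hexp (27 * (1 + (t : ℝ) ^ 2)) (by positivity)
    calc ((3 * (2 * k))! : ℝ) * (1 + (t : ℝ) ^ 2) ^ (2 * k)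
        ≤ (27 ^ (2 * k) * x ^ 3) * (1 + (t : ℝ) ^ 2) ^ (2 * k) := by gcongr
      _ = (27 * (1 + (t : ℝ) ^ 2)) ^ (2 * k) * x ^ 3 := by rw [mul_pow]; ring
      _ ≤ (Real.exp (27 * (1 + (t : ℝ) ^ 2)) * x) * x ^ 3 := by gcongr
      _ = C2 * x ^ 4 := by rw [hC2]; ring
  have hx4 : x ^ 4 ≤ C1 ^ 4 * |(A : ℝ)| ^ 8 := by
    calc x ^ 4 ≤ (C1 * |(A : ℝ)| ^ 2) ^ 4 := pow_le_pow_left₀ (by linarith) hxA 4
      _ = C1 ^ 4 * |(A : ℝ)| ^ 8 := by ring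
  have hstep := one_step t (2 * k) (even_two_mul k) ht2 A B hA (by
    refine le_trans (le_of_eq ?_) hk1
    rw [hT]
    ring)
  set ε := |(A : ℝ) * (2 * Real.cosh t) - B| with hε
  have hε0 : 0 ≤ ε := abs_nonneg _
  have h1 : 1 ≤ 2 * (C2 * (C1 ^ 4 * |(A : ℝ)| ^ 8)) * ε := by
    refine hstep.trans (mul_le_mul_of_nonneg_right (mul_le_mul_of_nonneg_left ?_ (by norm_num)) hε0)
    exact hE.trans (mul_le_mul_of_nonneg_left hx4 hC2pos.le)
  rw [div_le_iff₀ (by positivity)]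
  linarith

end UIL
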